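import Mathlib
import Pool.Agent.K3h68.UP.Lengths

/-!
# MP_13bc7b_nt: the length of finite orbits, potentially good reduction outside `S`, all degrees

Let `K` be a number field of degree `D`, `S` a finite set of finite places of `K`, `s = |S|`, and
`f = [F : G]` a self-map of the projective line over `K` of any degree `d` with potentially good
reduction (`Pool.Agent.H892.PGK.PotGood`) at all finite places outside `S`; nothing is assumed at
the places of `S`.  Then every finite orbit of `f` in `ℙ¹(K)` enters a cycle of length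
`n ≤ (34 (s + 2) log (s + 2)) ^ (4 D)`, and it does so after at most `n * C ^ (s + 1)` steps, where
`C` depends only on `D`.  The bounds do not depend on the degree `d` of `f`.

Proof.  Cycles: let `v` be a place outside `S` with residue field of `q` elements and residue
characteristic `p`.  In the good coordinates (over an extension) `f` does not increase the chordal
distance, so along a cycle the distance of `x` and `f^k x` depends only on `gcd(k, n)`.  At most
`q + 1` points of `ℙ¹(K)` are pairwise equidistant, so the first two levels contribute factors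
`m, r ≤ q + 1`.  On the residue disc the return map multiplies differences by some `λ`, up to smaller
terms, with `λ ^ r` close to `1`, and therefore `n = m r p ^ b`.  Two places of small norm and
different characteristics give the bound.  Tails: the points number `3, …, k` of a tail of a fixed
point of `f ^ n` have the same distances from the points number `0, 1, 2`, so they lie in one class
for the unit equation.
-/

set_option autoImplicit false

open MvPolynomial
open Pool.Agent.H892.PGK (PotGood PP fX)
open Pool.Agent.K3h68.UP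
open NumberField IsDedekindDomain

namespace Pool.Agent.Results.MP_13bc7b_nt.AllDegreesLengths

/-- the map on vectors -/
noncomputable def Φ {K : Type} [Field K] (F G : MvPolynomial (Fin 2) K) (w : Fin 2 → K) :
    Fin 2 → K := ![eval w F, eval w G]

theorem result (D : ℕ) : ∃ C : ℕ, 1 ≤ C ∧ ∀ (K : Type) [Field K] [NumberField K],
    Module.finrank ℚ K = D → ∀ (S : Finset (HeightOneSpectrum (𝓞 K))) (d : ℕ)
    (F G : MvPolynomial (Fin 2) K), F.IsHomogeneous d → G.IsHomogeneous d →
    (∀ x : Fin 2 → AlgebraicClosure K, x ≠ 0 → ¬ (aeval x F = 0 ∧ aeval x G = 0)) →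
    (∀ v : HeightOneSpectrum (𝓞 K), v ∉ S →
      PotGood (NumberField.HeightOneSpectrum.adicAbv K v) F G d) →
    ∀ u : Fin 2 → K, u ≠ 0 →
      (∃ i j : ℕ, i < j ∧ ∃ c : K, c ≠ 0 ∧ (Φ F G)^[j] u = c • (Φ F G)^[i] u) →
      ∃ a n : ℕ, 0 < n ∧
        (n : ℝ) ≤ (34 * (((S.card : ℝ) + 2) * Real.log ((S.card : ℝ) + 2))) ^ (4 * D) ∧
        a ≤ n * C ^ (S.card + 1) ∧
        ∃ c : K, c ≠ 0 ∧ (Φ F G)^[a + n] u = c • (Φ F G)^[a] u := by
  obtain ⟨C, hC, htail⟩ := tail_le_nat D
  refine ⟨C, hC, ?_⟩
  intro K _ _ hK S d F G hF hG hz hg u hu hpre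
  have h0 := h0_of hz
  set x : PP K := Projectivization.mk K u hu with hx
  have hpt : PrePt F G x := by
    obtain ⟨i, j, hij, c, hc, h1⟩ := hpre
    exact ⟨u, hu, rfl, i, j, hij, c, hc, h1⟩
  obtain ⟨k, hk⟩ := (prePt_iff hF hG h0 x).1 hpt
  set f := fX F G h0 with hf
  set y := f^[k] x with hy
  have hn0 : 0 < Function.minimalPeriod f y := Function.minimalPeriod_pos_of_mem_periodicPts hk
  set n := Function.minimalPeriod f y with hn
  have hper : f^[n] (f^[k] x) = f^[k] x := by
    have := Function.isPeriodicPt_minimalPeriod f y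
    exact this
  have h1 := cycle_le hK S h0 hg (x := y) hn.symm hn0
  have h2 := htail K hK S d F G h0 hg x k n hper
  refine ⟨n * C ^ (S.card + 1), n, hn0, h1, le_rfl, ?_⟩
  obtain ⟨g1, e1⟩ := iter_rep hF hG h0 u hu (n * C ^ (S.card + 1) + n)
  obtain ⟨g2, e2⟩ := iter_rep hF hG h0 u hu (n * C ^ (S.card + 1))
  have h3 : f^[n * C ^ (S.card + 1) + n] x = f^[n * C ^ (S.card + 1)] x := by
    rw [Nat.add_comm, Function.iterate_add_apply]
    exact h2
  have h4 : Projectivization.mk K ((Pool.Agent.H892.PGR.Phi F G)^[n * C ^ (S.card + 1) + n] u) g1 =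
      Projectivization.mk K ((Pool.Agent.H892.PGR.Phi F G)^[n * C ^ (S.card + 1)] u) g2 := by
    rw [← e1, ← e2]
    exact h3
  rw [Projectivization.mk_eq_mk_iff'] at h4
  obtain ⟨c, hc⟩ := h4
  refine ⟨c, ?_, hc.symm⟩
  rintro rfl
  rw [zero_smul] at hc
  exact g1 hc.symm

end Pool.Agent.Results.MP_13bc7b_nt.AllDegreesLengths
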