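import Pool.Agent.K3h53.FM.Mom3

/-!
# MP_13bc7b_nt: all moments of the number of preperiodic points over all number fields of bounded degree are bounded

For an integral pair `F` of binary forms of degree `d ≥ 2` without common zero let `μ(F)` be the largest number of
preperiodic points of `F` in `P¹(K)`, where `K` runs through all number fields of degree at most `D`.  For all `D`, `d ≥ 2`,
`k` and `δ > 0` there is `C` such that for every `H ≥ 1` and every set `T` of such pairs with coefficients of absolute value
at most `H` the sum of `μ(F) ^ k` over `T` is at most `C (|T| + H ^ (4 + δ))`.  So the `k`-th moment of `μ` over all pairs with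
coefficients of absolute value at most `H`, and over every subset with at least `H ^ (4 + δ)` elements, is at most `2 C`, for
all `k`.  For polynomials of degree `d` the exponent is `3 + δ`.

Proof.  Except for `O(H ^ (4 + δ / 2))` pairs (`O(H ^ (3 + δ / 2))` polynomials) `μ` is bounded (`FewExceptionalMaps`), and
for all pairs `μ(F) = O(log H ^ 2)`: outside of the `O(log H)` places of `K` which divide the resultant `F` has good
reduction, and `F` has `O(s log s)` preperiodic points over `K`, where `s` is the number of the places of bad reduction
(`RationalMapsBadPlaces`).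
-/

set_option autoImplicit false

namespace Pool.Agent.Results.MP_13bc7b_nt.BoundedMoments

/-- The algebraic numbers; all number fields are subfields of this field. -/
abbrev Qbar : Type := AlgebraicClosure ℚ

/-- The pairs of binary forms of degree `d` with integral coefficients: `F i j` is the coefficient of `x ^ j y ^ (d - j)` in
the `i`-th form. -/
abbrev Forms (d : ℕ) : Type := Fin 2 → Fin (d + 1) → ℤ

variable {d : ℕ}

/-- The value at `v` of the pair `F` of binary forms. -/
def act (F : Forms d) {K : Type} [Field K] (v : Fin 2 → K) : Fin 2 → K :=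
  fun i => ∑ j : Fin (d + 1), (F i j : K) * v 0 ^ (j : ℕ) * v 1 ^ (d - (j : ℕ))

/-- The two forms have no common zero in the projective line over the algebraic numbers: they define an endomorphism of the
projective line of degree `d`. -/
def IsEndomorphism (F : Forms d) : Prop := ∀ v : Fin 2 → Qbar, act F v = 0 → v = 0

/-- The set of the preperiodic points of `F` in the projective line over `K`: the points `p` such that the `n`-th and the
`m`-th iterate at `p` are proportional for some `m < n`. -/
def preperiodic (F : Forms d) (K : Type) [Field K] : Set (Projectivization K (Fin 2 → K)) :=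
  {p | ∃ m n : ℕ, m < n ∧ ∃ c : K, c ≠ 0 ∧ (act F)^[n] p.rep = c • (act F)^[m] p.rep}

/-- `F` has at least `m` preperiodic points in `P¹(K)` for some number field `K` of degree at most `D`. -/
def HasPoints (D m : ℕ) (F : Forms d) : Prop :=
  ∃ (K : IntermediateField ℚ Qbar) (_ : NumberField K), Module.finrank ℚ K ≤ D ∧ (m : ℕ∞) ≤ (preperiodic F K).encard

/-- The second form is `b y ^ d`: the map is the polynomial `(c_0 + ... + c_d z ^ d) / b`, `c_j = F 0 j`, `b = F 1 0`. -/
def IsPolynomial (F : Forms d) : Prop := ∀ j, j ≠ 0 → F 1 j = 0

/-- All the pairs in `T` have coefficients of absolute value at most `H` and define endomorphisms of the projective line. -/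
def InBox (H : ℕ) (T : Finset (Forms d)) : Prop := ∀ F ∈ T, (∀ i j, |F i j| ≤ (H : ℤ)) ∧ IsEndomorphism F

/-- The sum of the `k`-th powers of `μ F` over `F ∈ T`. -/
def moment (k : ℕ) (μ : Forms d → ℕ) (T : Finset (Forms d)) : ℕ := ∑ F ∈ T, μ F ^ k

/-- **All moments are bounded.**  Here `μ F` is at most the number of preperiodic points of `F` in `P¹(K)` for some number
field `K = K(F)` of degree at most `D`; the fields may be different for different `F`. -/
theorem result (D d k : ℕ) (hd : 2 ≤ d) (δ : ℝ) (hδ : 0 < δ) : ∃ C : ℝ, ∀ H : ℕ, 1 ≤ H →
    ∀ T : Finset (Forms d), InBox H T → ∀ μ : Forms d → ℕ, (∀ F ∈ T, HasPoints D (μ F) F) →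
      (moment k μ T : ℝ) ≤ C * (T.card + (H : ℝ) ^ (4 + δ)) ∧
      ((∀ F ∈ T, IsPolynomial F) → (moment k μ T : ℝ) ≤ C * (T.card + (H : ℝ) ^ (3 + δ))) := by
  obtain ⟨C, hC⟩ := Pool.Agent.K3h53.FM.moments D d k hd δ hδ
  refine ⟨C, fun H hH T hT μ hμ => ?_⟩
  have h := hC H hH T hT μ hμ
  unfold moment
  push_cast
  exact h

end Pool.Agent.Results.MP_13bc7b_nt.BoundedMoments
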