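import Pool.Agent.Results.MP_13bc7b_nt.ManyPreperiodicPoints
import Pool.Agent.R482.ST.Vec

/-!
# Uniform boundedness for ALL endomorphisms of `P^N` near powers, orbits and other sequences

A system of `N + 1` integral forms of degree `d` in `N + 1` variables is a vector of `Q = (N + 1) (N + d choose N)`
integers. Let `f_j`, `j = 0, 1, 2, …`, be positive functions on `(a, ∞)`, `a ≥ 0`, such that `f_j(t) / t` is
nondecreasing and such that the sequence `f_j(t)` has exponent of convergence at most `τ` for each `t > a`: for instance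
`f_j(t) = t ^ (v_j)` for exponents `v_j ≥ 1` growing faster than `log j` (`τ = 0`; all powers, the powers `t ^ (3 ^ j)`,
…), the orbits `f_j(t) = g (g (⋯ g (t)))` of a map `g` with `g(t) > t` and `g(t) / t` nondecreasing (`τ = 0`; for
instance of `t² + c`), and `f_j(t) = b ^ j t`, `j ^ (1 / τ) t`.

For all `N, D, k ≥ 1` and all `d ≥ d₀(N, D, k)` the following holds. For all vectors `u ∈ ℝ ^ Q`, `‖u‖ > a`, outside a
set of Hausdorff dimension at most `(Q - k N + τ) / (1 - θ)` and each `c`, for all but finitely many `j`, EVERY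
endomorphism of `P^N` given by a system with coefficients at distance at most `c f_j(‖u‖) ^ θ` from the vector
`(f_j(‖u‖) / ‖u‖) u` has fewer than `k` preperiodic points of degree at most `D` over `ℚ`. So every further preperiodic
point lowers the dimension of the exceptional set by `N / (1 - θ)`. For `k = 1`, `Q θ + τ < N` the dimension is smaller
than `Q`: near the powers etc. of almost every vector there is, in whole windows, no endomorphism with a preperiodic
point of degree at most `D`.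

The number of the systems with coefficients at most `H` with at least `k` preperiodic points is `O(H ^ (Q - k N))`
(`ManyPreperiodicPoints`); the passage from thin sets of integral vectors to windows is the theorem
`Pool.Agent.R482.ST.vec_prop` on vectors and starshaped maps.
-/

set_option autoImplicit false

open MvPolynomial

namespace Pool.Agent.Results.MP_13bc7b_nt.StarshapedEndomorphisms

open Pool.Agent.Results.MP_13bc7b_nt.ManyPreperiodicPoints

/-- The positions of the coefficients of a system of `N + 1` forms of degree `d` in `N + 1` variables: the pairs of an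
index `i ≤ N` and of a tuple of `N + 1` exponents with the sum `d`. -/
abbrev Idx (N d : ℕ) : Type := Fin (N + 1) × {m : Fin (N + 1) → ℕ // m ∈ Finset.Nat.antidiagonalTuple (N + 1) d}

/-- The coefficient of the system `F` at the position `p`. -/
noncomputable def coef {N d : ℕ} (F : Fin (N + 1) → MvPolynomial (Fin (N + 1)) ℤ) (p : Idx N d) : ℤ :=
  (F p.1).coeff (Finsupp.equivFunOnFinite.symm p.2.1)

/-- A bound for the coefficients in degree `d` is a bound for all coefficients of a system of forms of degree `d`. -/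
lemma coeff_le {N d : ℕ} {F : Fin (N + 1) → MvPolynomial (Fin (N + 1)) ℤ} (hF : ∀ i, (F i).IsHomogeneous d)
    {H : ℕ} (h : ∀ p : Idx N d, |coef F p| ≤ (H : ℤ)) (i : Fin (N + 1)) (m : Fin (N + 1) →₀ ℕ) :
    |(F i).coeff m| ≤ (H : ℤ) := by
  by_cases h0 : (F i).coeff m = 0
  · rw [h0, abs_zero]
    positivity
  · have h1 : m.degree = d := by
      rw [Finsupp.degree_eq_weight_one]
      exact hF i h0
    have h2 : (m : Fin (N + 1) → ℕ) ∈ Finset.Nat.antidiagonalTuple (N + 1) d := by
      rw [Finset.Nat.mem_antidiagonalTuple, ← h1, Finsupp.degree_eq_sum]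
    have h3 := h (i, ⟨m, h2⟩)
    have h4 : (Finsupp.equivFunOnFinite.symm (m : Fin (N + 1) → ℕ)) = m := by
      ext; rfl
    unfold coef at h3
    simpa [h4] using h3

/-- The systems with given coefficients with at least `k` preperiodic points. -/
def Bad (N D k d : ℕ) (z : Idx N d → ℤ) : Prop :=
  ∃ F : Fin (N + 1) → MvPolynomial (Fin (N + 1)) ℤ, (∀ i, (F i).IsHomogeneous d) ∧ (∀ p, coef F p = z p) ∧
    IsMorphism F ∧ HasPreperiodicPoints D k F

lemma bad_card (N D k d H : ℕ) :
    {z : Idx N d → ℤ | (∀ p, |z p| ≤ (H : ℤ)) ∧ Bad N D k d z}.ncard ≤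
      ({F | F ∈ Sys N d H ∧ IsMorphism F ∧ HasPreperiodicPoints D k F} :
          Set (Fin (N + 1) → MvPolynomial (Fin (N + 1)) ℤ)).ncard := by
  set S := ({F | F ∈ Sys N d H ∧ IsMorphism F ∧ HasPreperiodicPoints D k F} :
          Set (Fin (N + 1) → MvPolynomial (Fin (N + 1)) ℤ)) with hS
  have hfin : S.Finite := (Pool.Agent.W276.GE.PS_finite N d H).subset fun F hF => hF.1
  refine (Set.ncard_le_ncard (t := (fun F => (fun p : Idx N d => coef F p)) '' S) ?_ (hfin.image _)).trans
    (Set.ncard_image_le hfin)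
  rintro z ⟨hz, F, h1, h2, h3, h4⟩
  refine ⟨F, ⟨fun i => ⟨h1 i, fun m => ?_⟩, h3, h4⟩, funext h2⟩
  exact coeff_le h1 (fun p => by rw [h2 p]; exact hz p) i m

lemma le_choose {N d : ℕ} (hN : 1 ≤ N) : d + 1 ≤ (N + d).choose N := by
  have h1 : (1 + d).choose 1 ≤ (N + d).choose N := by
    have h2 : (1 + d).choose d ≤ (N + d).choose d := Nat.choose_le_choose d (by omega)
    rwa [Nat.choose_symm_add, Nat.choose_symm_add] at *
  rw [Nat.choose_one_right] at h1
  omega

/-- **Main result.** -/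
theorem result (N D k : ℕ) (hN : 1 ≤ N) (hD : 1 ≤ D) (hk : 1 ≤ k) : ∃ d₀ : ℕ, ∀ d : ℕ, d₀ ≤ d →
    ∀ (a τ θ : ℝ) (f : ℕ → ℝ → ℝ), 0 ≤ a →
      (∀ j : ℕ, ∀ x y : ℝ, a < x → x ≤ y → 0 < f j x ∧ f j x / x ≤ f j y / y) → 0 ≤ τ →
      (∀ x : ℝ, a < x → ∀ t : ℝ, τ < t → Summable fun j : ℕ => (f j x) ^ (-t)) → θ < 1 →
    ∃ E : Set (Idx N d → ℝ),
      dimH E ≤ ENNReal.ofReal ((((N : ℝ) + 1) * ((N + d).choose N : ℕ) - k * N + τ) / (1 - θ)) ∧
      ∀ u : Idx N d → ℝ, a < ‖u‖ → u ∉ E → ∀ c : ℝ, ∃ j₀ : ℕ, ∀ j : ℕ, j₀ ≤ j →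
        ∀ F : Fin (N + 1) → MvPolynomial (Fin (N + 1)) ℤ, (∀ i, (F i).IsHomogeneous d) →
        (∀ p, |(coef F p : ℝ) - f j ‖u‖ / ‖u‖ * u p| ≤ c * (f j ‖u‖) ^ θ) →
        IsMorphism F → ¬ HasPreperiodicPoints D k F := by
  obtain ⟨d₀, h⟩ := ManyPreperiodicPoints.result N D k hN hD hk
  refine ⟨max d₀ k, fun d hd a τ θ f ha hf hτ hconv hθ => ?_⟩
  obtain ⟨-, C, -, -, hC, hup, -⟩ := h d ((le_max_left _ _).trans hd)
  have hkd : k ≤ d := (le_max_right _ _).trans hd
  have hle : k * N ≤ (N + 1) * (N + d).choose N := by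
    have h1 := le_choose (d := d) hN
    calc k * N ≤ (d + 1) * (N + 1) := Nat.mul_le_mul (by omega) (by omega)
      _ = (N + 1) * (d + 1) := mul_comm _ _
      _ ≤ (N + 1) * (N + d).choose N := Nat.mul_le_mul le_rfl h1
  obtain ⟨E, hE, hw⟩ := Pool.Agent.R482.ST.vec_prop (ι := Idx N d) (fun z _ => Bad N D k d z)
    (fun z X Y _ h => h)
    (s := (((N + 1) * (N + d).choose N - k * N : ℕ) : ℝ)) (by positivity)
    (fun ε hε => by
      refine ⟨C, fun H hH => ?_⟩
      have hH1 : (1 : ℝ) ≤ H := by exact_mod_cast hH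
      have h1 := bad_card N D k d H
      have h2 : ({z : Idx N d → ℤ | (∀ p, |z p| ≤ (H : ℤ)) ∧ Bad N D k d z}.ncard : ℝ) ≤
        ((({F | F ∈ Sys N d H ∧ IsMorphism F ∧ HasPreperiodicPoints D k F} :
          Set (Fin (N + 1) → MvPolynomial (Fin (N + 1)) ℤ)).ncard : ℕ) : ℝ) := by exact_mod_cast h1
      refine (h2.trans (hup H hH)).trans ?_
      rw [← Real.rpow_natCast]
      apply mul_le_mul_of_nonneg_left _ hC.le
      apply Real.rpow_le_rpow_of_exponent_le hH1
      linarith) f a τ θ ⟨ha, hf⟩ hτ hconv hθ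
  refine ⟨E, hE.trans (le_of_eq ?_), fun u hu huE c => ?_⟩
  · congr 3
    rw [Nat.cast_sub hle]
    push_cast
    ring
  obtain ⟨j₀, hj₀⟩ := hw u hu huE c
  refine ⟨j₀, fun j hj F hF hz hM hP => ?_⟩
  exact hj₀ j hj (fun p => coef F p) hz ⟨F, hF, fun p => rfl, hM, hP⟩

end Pool.Agent.Results.MP_13bc7b_nt.StarshapedEndomorphisms
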