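import Pool.Agent.K3h53.MS.Bad
import Pool.Agent.R559.NP.Near3

/-!
# MP_13bc7b_nt: uniform boundedness in every dimension, over all number fields of bounded degree, for
# the symmetric powers of ALL rational maps near a given point

Let `ψ` be any map from the rational maps of degree `d ≥ 2` over the algebraic numbers to a metric
space, which takes the same value on conjugate maps; for example the point of the moduli space, over
a completion.  For all `ξ` outside a set of Hausdorff dimension zero, all `τ > 0` and all `κ` there is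
`M` such that for EVERY number field `K` of degree at most `D`, EVERY rational map `f` of degree `d` over
`K` of height at most `T` with `dist (ψ f) ξ ≤ κ T ^ (-τ)` and all `1 ≤ n ≤ B` the `n`-th symmetric power
of `f`, an endomorphism of degree `d` of `Pⁿ` over `K`, has at most `M` preperiodic points in `Pⁿ(K)`.

The proof uses the theorem SymmetricPowersFewClasses of this folder, Northcott's theorem for the
members of one conjugacy class over the algebraic numbers over all fields of bounded degree (a
coordinate change between two members is defined over a field of bounded degree, since it maps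
three preperiodic points to three such points), and a covering argument.
-/

set_option autoImplicit false

namespace Pool.Agent.Results.MP_13bc7b_nt.SymmetricPowersNearAPoint

open Filter Topology
open SymmetricPowersFewClasses (Qbar Pair act height preperiodic)

variable {d : ℕ}

/-- The pairs of binary forms of degree `d` over the algebraic numbers are conjugate: for an
invertible matrix `A` we have `G (A v) = A (F v)` in the projective line for all `v`. -/
def Conjugate (F G : Fin 2 → Fin (d + 1) → Qbar) : Prop :=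
  ∃ A : Matrix (Fin 2) (Fin 2) Qbar, A.det ≠ 0 ∧ ∀ v : Fin 2 → Qbar, v ≠ 0 → ∃ c : Qbar, c ≠ 0 ∧
    act G (A.mulVec v) = c • A.mulVec (act F v)

/-- There are at most `M` preperiodic points of the map of degree at most `B` over its field `K`, and
for all `1 ≤ n ≤ B` the `n`-th symmetric power has at most `M` preperiodic points in `Pⁿ(K)`. -/
def FewPoints (B M : ℕ) (φ : Pair d) : Prop :=
  (φ.preperiodicOfDegree B).encard ≤ (M : ℕ∞) ∧
    ∀ n : ℕ, 1 ≤ n → n ≤ B → ∀ Φ : Fin (n + 1) → MvPolynomial (Fin (n + 1)) φ.K,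
      φ.IsSymmetricPower Φ → (preperiodic Φ).encard ≤ (M : ℕ∞)

/-- **Theorem.** Let `d ≥ 2` and let `ψ` be a map from the pairs of binary forms of degree `d` over the
algebraic numbers to a metric space `X`, which takes the same value on conjugate pairs.  For all
`ξ ∈ X` outside a set of Hausdorff dimension zero and all `τ > 0`
(1) for every `κ` there is `M` such that for every number field `K` of degree at most `D` and every
endomorphism `f` of degree `d` of the projective line over `K` of height at most `T` with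
`dist (ψ f) ξ ≤ κ T ^ (-τ)` there are at most `M` preperiodic points of `f` of degree at most `B` over
`K`, and the symmetric powers of `f` of the orders `1 ≤ n ≤ B` have at most `M` preperiodic points in
`Pⁿ(K)`;
(2) there is `N` such that for every `κ` the `f` as in (1) which violate (1) for `N` instead of `M` lie
in finitely many conjugacy classes over the algebraic numbers. -/
theorem result (D B d : ℕ) (hd : 2 ≤ d) (X : Type) [MetricSpace X]
    (ψ : (Fin 2 → Fin (d + 1) → Qbar) → X) (hψ : ∀ F G, Conjugate F G → ψ F = ψ G) :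
    ∃ E : Set X, dimH E = 0 ∧ ∀ ξ : X, ξ ∉ E → ∀ τ : ℝ, 0 < τ →
      (∀ κ : ℝ, ∃ M : ℕ, ∀ φ : Pair d, φ.IsEndomorphism → Module.finrank ℚ φ.K ≤ D →
        ∀ T : ℕ, 1 ≤ T → height φ.F ≤ T → dist (ψ φ.ext) ξ ≤ κ * (T : ℝ) ^ (-τ) →
          FewPoints B M φ) ∧
      (∃ N : ℕ, ∀ κ : ℝ, ∃ S : Finset (Fin 2 → Fin (d + 1) → Qbar), ∀ φ : Pair d,
        φ.IsEndomorphism → Module.finrank ℚ φ.K ≤ D → ∀ T : ℕ, 1 ≤ T → height φ.F ≤ T →
        dist (ψ φ.ext) ξ ≤ κ * (T : ℝ) ^ (-τ) → ¬ FewPoints B N φ →
          ∃ G ∈ S, Conjugate G φ.ext) := by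
  classical
  have hres := fun j : ℕ =>
    Pool.Agent.K3h53.MS.few_bad (d := d) D B hd (1 / ((j : ℝ) + 1)) (by positivity)
  choose N C hN using hres
  have hct0 : Countable Qbar := by
    rw [← Set.countable_univ_iff]
    exact (Algebraic.countable ℚ (AlgebraicClosure ℚ)).mono fun x _ =>
      (AlgebraicClosure.isAlgebraic ℚ).isAlgebraic x
  have hct : Countable (Quotient (Pool.Agent.K3h53.MS.stq d)) := Quotient.countable
  obtain ⟨E, hE, hE'⟩ := Pool.Agent.R559.NP.near_zero_lvl
    (Z := Quotient (Pool.Agent.K3h53.MS.stq d)) (Y := Unit) (X := X)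
    (F := fun j _ T => Pool.Agent.K3h53.MS.BadZ d D B (N j) T)
    (fun j _ t t' htt => Pool.Agent.K3h53.MS.BadZ_mono htt)
    (s := fun j => 1 / ((j : ℝ) + 1)) (fun j => by positivity)
    tendsto_one_div_add_atTop_nhds_zero_nat (fun j _ => ⟨|C j|, fun T hT => hN j T hT⟩)
    (fun _ z => Quotient.lift ψ hψ z)
  refine ⟨E, hE, fun ξ hξ τ hτ => ?_⟩
  obtain ⟨j, hj⟩ := hE' ξ hξ τ hτ
  have hmem : ∀ (κ : ℝ) (φ : Pair d), φ.IsEndomorphism → Module.finrank ℚ φ.K ≤ D →
      ∀ T : ℕ, 1 ≤ T → height φ.F ≤ T → dist (ψ φ.ext) ξ ≤ κ * (T : ℝ) ^ (-τ) →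
      ¬ FewPoints B (N j) φ →
      Quotient.mk (Pool.Agent.K3h53.MS.stq d) φ.ext ∈ (hj () κ).toFinset := by
    intro κ φ hφ hD T hT hc hd' hn
    rw [Set.Finite.mem_toFinset]
    exact ⟨T, hT, ⟨φ, rfl, hφ, Pool.Agent.K3h53.MS.not_few hD hc hn⟩, hd'⟩
  constructor
  · intro κ
    choose b hb using fun z => Pool.Agent.K3h53.MS.cls (d := d) D B hd z
    refine ⟨max (N j) ((hj () κ).toFinset.sup b), fun φ hφ hD T hT hc hd' => ?_⟩
    by_cases h : FewPoints B (N j) φ
    · exact Pool.Agent.K3h53.MS.Few.mono (le_max_left _ _) h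
    · have h1 := hmem κ φ hφ hD T hT hc hd' h
      have h2 := hb _ φ rfl hφ hD
      have h3 : b (Quotient.mk (Pool.Agent.K3h53.MS.stq d) φ.ext) ≤ (hj () κ).toFinset.sup b :=
        Finset.le_sup h1
      exact Pool.Agent.K3h53.MS.Few.mono (h3.trans (le_max_right _ _)) h2
  · refine ⟨N j, fun κ => ⟨(hj () κ).toFinset.image Quotient.out,
      fun φ hφ hD T hT hc hd' hn => ?_⟩⟩
    refine ⟨(Quotient.mk (Pool.Agent.K3h53.MS.stq d) φ.ext).out,
      Finset.mem_image_of_mem _ (hmem κ φ hφ hD T hT hc hd' hn), ?_⟩
    exact Quotient.exact (s := Pool.Agent.K3h53.MS.stq d) (Quotient.out_eq _)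

end Pool.Agent.Results.MP_13bc7b_nt.SymmetricPowersNearAPoint
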